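import Pool.Agent.Helper41.SQC.Goals
import Pool.Agent.Helper4.SQ.CT
import Pool.Agent.Helper29.SQ.CE

/-!
Project SQ stage C (MP_bb32d1_al), packet CTP: the coproduct lemma with parameters.
-/

set_option autoImplicit false

namespace Pool.Agent.Helper90.SQC

open Pool.Agent.Helper19.SQ Pool.Agent.Helper4.SQ Pool.Agent.Helper41.SQC

section

variable {B : Type} [Ring B] [Algebra ℂ B]

/-- weights of `K_a K_b⁻¹`. -/
theorem kk_w (hKI : S_KI) {l : ℕ} {q : ℂ} {K : ℕ → B} {X : B} {w : ℕ → ℤ} (hl : 1 ≤ l)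
    (hq : q ≠ 0) (hc : ∀ i j, K i * K j = K j * K i) (hp : ∀ j, K j ^ l = 1)
    (hE : ∀ j, K j * X = q ^ w j • (X * K j)) (a b : ℕ) :
    kk l K a b * X = q ^ (w a - w b) • (X * kk l K a b) := by
  obtain ⟨h1, h2, -, -, -, -⟩ := hKI B l K hl hc hp
  have h3 := inv_comm (zpow_ne_zero (w b) hq) (h1 b) (h2 b) (hE b)
  unfold kk
  rw [mul_assoc, h3, mul_smul_comm, ← mul_assoc, hE a, smul_mul_assoc, smul_smul, mul_assoc,
    ← zpow_neg, ← zpow_add₀ hq]
  congr 2
  ring

/-- weights of `cE`, with the weights of the two families only. -/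
theorem KE_cE' (hKI : S_KI) {l : ℕ} {q : ℂ} {E1 K1 E2 K2 : ℕ → B} (hl : 1 ≤ l)
    (hc1 : ∀ i j, K1 i * K1 j = K1 j * K1 i) (hp1 : ∀ j, K1 j ^ l = 1)
    (hE1 : ∀ j i, K1 j * E1 i = q ^ pr j i • (E1 i * K1 j))
    (hE2 : ∀ j i, K2 j * E2 i = q ^ pr j i • (E2 i * K2 j)) (cEK : Cm E1 K2)
    (cKE : Cm K1 E2) (cKK : Cm K1 K2) (j i : ℕ) :
    cK K1 K2 j * cE l E1 K1 E2 i = q ^ pr j i • (cE l E1 K1 E2 i * cK K1 K2 j) := by
  unfold cK cE
  have e1 : K1 j * K2 j * E1 i = q ^ pr j i • (E1 i * (K1 j * K2 j)) := by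
    rw [mul_assoc, ← cEK i j, ← mul_assoc, hE1, smul_mul_assoc, mul_assoc]
  obtain ⟨-, -, g3, -, -, -⟩ := hKI B l K1 hl hc1 hp1
  have e2 : Commute (K1 j) (kk l K1 i (i + 1)) := by
    have a1 : Commute (K1 j) (K1 i) := hc1 j i
    have a2 : Commute (K1 j) (ki l K1 (i + 1)) := g3 j (i + 1)
    exact a1.mul_right a2
  have e3 : Commute (K2 j) (kk l K1 i (i + 1)) := (kk_cm cKK i (i + 1) j).symm
  have e4 : K1 j * K2 j * (kk l K1 i (i + 1) * E2 i)
      = q ^ pr j i • (kk l K1 i (i + 1) * E2 i * (K1 j * K2 j)) := by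
    have a1 : K1 j * K2 j * (kk l K1 i (i + 1) * E2 i)
        = kk l K1 i (i + 1) * (K1 j * (K2 j * E2 i)) := by
      rw [← mul_assoc, (e2.mul_left e3).eq, mul_assoc, mul_assoc]
    rw [a1, hE2, mul_smul_comm, mul_smul_comm, ← mul_assoc (K1 j), cKE j i]
    congr 1
    simp only [mul_assoc]
  rw [mul_add, add_mul, smul_add, e1, e4]

/-- the Serre relations for `E'_i + k'_i E''_i`. -/
theorem serre_cE' (hCS : S_CS) (hKI : S_KI) {l : ℕ} {q : ℂ} {E1 K1 E2 : ℕ → B} (hl : 1 ≤ l)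
    (hq : q ≠ 0) (hc1 : ∀ i j, K1 i * K1 j = K1 j * K1 i) (hp1 : ∀ j, K1 j ^ l = 1)
    (hE1 : ∀ j i, K1 j * E1 i = q ^ pr j i • (E1 i * K1 j))
    (h1 : SerreRel q E1) (h2 : SerreRel q E2) (c : Cm E1 E2) (cK : Cm K1 E2) :
    SerreRel q (cE l E1 K1 E2) := by
  refine hCS B q E1 (fun i => kk l K1 i (i + 1) * E2 i) hq h1
    (serre_mul (fun i j => kk_comm hKI hl hc1 hp1 _ _ _ _)
      (fun i j => kk_cm cK _ _ _) h2) ?_
  intro i j
  have e : E2 i * E1 j = E1 j * E2 i := (c j i).symm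
  have e3 := kk_E hKI hl hq hc1 hp1 hE1 i (i + 1) j
  rw [mul_assoc, e, ← mul_assoc, e3, smul_mul_assoc, mul_assoc]

/-- root vectors of `t_i E_i` with central `t_i`. -/
theorem rvA_central {q : ℂ} {t E : ℕ → B} (ht : ∀ i x, t i * x = x * t i) (d : ℕ) :
    ∀ i, ∃ c : B, (∀ x, c * x = x * c) ∧ rvA q (fun k => t k * E k) d i = c * rvA q E d i := by
  induction d with
  | zero => exact fun i => ⟨t i, ht i, rfl⟩
  | succ d ih =>
    intro i
    obtain ⟨c, hc, hr⟩ := ih (i + 1)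
    refine ⟨t i * c, fun x => by rw [mul_assoc, hc, ← mul_assoc, ht, mul_assoc], ?_⟩
    have e1 : t i * E i * (c * rvA q E d (i + 1)) = t i * c * (E i * rvA q E d (i + 1)) := by
      rw [mul_assoc, ← mul_assoc (E i), ← hc (E i)]
      simp only [mul_assoc]
    have e2 : c * rvA q E d (i + 1) * (t i * E i) = t i * c * (rvA q E d (i + 1) * E i) := by
      rw [← mul_assoc, mul_assoc c, ← ht i (rvA q E d (i + 1)), ← mul_assoc c, ← ht i c]
      simp only [mul_assoc]
    show t i * E i * rvA q (fun k => t k * E k) d (i + 1)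
      - q⁻¹ • (rvA q (fun k => t k * E k) d (i + 1) * (t i * E i)) = _
    rw [hr, e1, e2]
    show _ = t i * c * (E i * rvA q E d (i + 1) - q⁻¹ • (rvA q E d (i + 1) * E i))
    rw [mul_sub, mul_smul_comm]

theorem pr_sym (i j : ℕ) : -pr i j - -pr (i + 1) j = pr (j + 1) i - pr j i := by
  unfold pr
  split_ifs <;> omega

end

theorem c_ctp (hCS : S_CS) (hCP : S_CP) (hHF : S_HF) (hKI : S_KI) : S_CTP := by
  intro B _ _ N l q t t' E1 F1 K1 E2 F2 K2 hP h1 h2 hc
  have hl3 := hP.h3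
  have hl : 1 ≤ l := by omega
  have hq := qne hP
  obtain ⟨a1, b1⟩ := hHF B N l q E1 F1 K1 hl hq h1
  obtain ⟨k1, k2, k3, k4, k5, k6⟩ := hKI B l K1 hl h1.K_comm h1.K_pow
  obtain ⟨m1, m2, m3, m4, m5, m6⟩ := hKI B l K2 hl h2.K_comm h2.K_pow
  -- the half family `(F2, K2⁻¹)`
  have b2 : HRel l q F2 (ki l K2) :=
    { K_comm := m4
      K_pow := m6
      KE := by
        intro j i
        have e := inv_comm (zpow_ne_zero (-pr j i) hq) (m1 j) (m2 j) (h2.KF j i)
        rw [← zpow_neg, neg_neg] at e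
        exact e
      sE := h2.sF
      pE := h2.pF }
  -- the half family `(t' F1, K1⁻¹)`
  have b1' : HRel l q (fun i => t' i * F1 i) (ki l K1) :=
    { K_comm := k4
      K_pow := k6
      KE := by
        intro j i
        show ki l K1 j * (t' i * F1 i) = q ^ pr j i • (t' i * F1 i * ki l K1 j)
        rw [← mul_assoc, ← h2.tc' i (ki l K1 j), mul_assoc, b1.KE, mul_smul_comm, mul_assoc]
      sE := serre_mul (fun i j => h2.tc' i (t' j)) (fun i j => h2.tc' i (F1 j)) b1.sE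
      pE := by
        intro d i
        obtain ⟨c, hc, hr⟩ := rvA_central (q := q) (E := F1) h2.tc' d i
        have e : Commute c (rvA q F1 d i) := hc _
        rw [hr, e.mul_pow, b1.pE, mul_zero] }
  have tC : ∀ i x, Commute (t' i) x := h2.tc'
  have cFF : Cm F2 (fun i => t' i * F1 i) := fun i j =>
    (((tC j (F2 i)).symm).mul_right (hc.FF j i).symm).eq
  have cFK : Cm (fun i => t' i * F1 i) K2 := fun i j => ((tC i (K2 j)).mul_left (hc.FK i j)).eq
  have cKF : Cm (ki l K2) (fun i => t' i * F1 i) := ki_cm (cm_symm cFK)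
  have cKK' : Cm (ki l K2) (ki l K1) := ki_cm (cm_symm (ki_cm hc.KK))
  have hF0 : (fun i => t' i * (F1 i * kk l K2 (i + 1) i) + F2 i)
      = cF l (fun i => t' i * F1 i) K2 F2 := by
    funext i
    unfold cF
    rw [mul_assoc]
  have hF := cF_eq (F2 := F2) hKI hl h2.K_comm h2.K_pow cFK
  have hkm : ∀ j, ki l (cK K1 K2) j = cK (ki l K1) (ki l K2) j := by
    intro j
    unfold ki cK
    have e : Commute (K1 j) (K2 j) := hc.KK j j
    exact e.mul_pow (l - 1)
  have hcomm : ∀ i j, cK K1 K2 i * cK K1 K2 j = cK K1 K2 j * cK K1 K2 i := by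
    intro i j
    have u1 : Commute (K1 i) (K1 j) := h1.K_comm i j
    have u2 : Commute (K2 i) (K2 j) := h2.K_comm i j
    have u3 : Commute (K1 i) (K2 j) := hc.KK i j
    have u4 : Commute (K2 i) (K1 j) := (hc.KK j i).symm
    exact ((u1.mul_right u3).mul_left (u4.mul_right u2)).eq
  have hpow : ∀ j, cK K1 K2 j ^ l = 1 := by
    intro j
    have e : Commute (K1 j) (K2 j) := hc.KK j j
    rw [cK, e.mul_pow, h1.K_pow, h2.K_pow, one_mul]
  have hKF : ∀ j i, cK K1 K2 j * cF l (fun i => t' i * F1 i) K2 F2 i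
      = q ^ (-pr j i) • (cF l (fun i => t' i * F1 i) K2 F2 i * cK K1 K2 j) := by
    intro j i
    have e := KE_cE' hKI hl b2.K_comm b2.K_pow b2.KE b1'.KE (cm_symm (ki_cm hc.KF)) cKF cKK' j i
    rw [← hF] at e
    obtain ⟨g1, g2, -, -, -, -⟩ := hKI B l (cK K1 K2) hl hcomm hpow
    have e5 : cK (ki l K2) (ki l K1) j = ki l (cK K1 K2) j := by
      rw [hkm]
      unfold cK
      exact cKK' j j
    rw [e5] at e
    have e6 := inv_comm (zpow_ne_zero (pr j i) hq) (g2 j) (g1 j) e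
    rw [zpow_neg]
    exact e6
  -- the commutators
  have key : ∀ i j, cE l E1 K1 E2 i * cF l (fun i => t' i * F1 i) K2 F2 j
      - cF l (fun i => t' i * F1 i) K2 F2 j * cE l E1 K1 E2 i
      = t' j * (E1 i * F1 j - F1 j * E1 i) * kk l K2 (j + 1) j
        + kk l K1 i (i + 1) * (E2 i * F2 j - F2 j * E2 i) := by
    intro i j
    have w3 : kk l K1 i (i + 1) * (t' j * F1 j)
        = q ^ (pr (j + 1) i - pr j i) • (t' j * F1 j * kk l K1 i (i + 1)) := by
      have e := kk_w (w := fun p => -pr p j) hKI hl hq h1.K_comm h1.K_pow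
        (fun p => h1.KF p j) i (i + 1)
      rw [pr_sym] at e
      rw [← mul_assoc, ← h2.tc' j (kk l K1 i (i + 1)), mul_assoc, e, mul_smul_comm, mul_assoc]
    have w4 := kk_w (w := fun p => pr p i) hKI hl hq h2.K_comm h2.K_pow
      (fun p => h2.KE p i) (j + 1) j
    have e0 : E1 i * (t' j * F1 j) - t' j * F1 j * E1 i = t' j * (E1 i * F1 j - F1 j * E1 i) := by
      rw [← mul_assoc, ← h2.tc' j (E1 i), mul_sub, mul_assoc, mul_assoc]
    rw [← e0]
    refine Pool.Agent.Helper29.SQ.ce_aux (E1 i) (t' j * F1 j) (E2 i) (F2 j) (kk l K1 i (i + 1))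
      (kk l K2 (j + 1) j) _ ?_ (hc.EF i j) w3 w4 ?_ ?_ ?_
    · have ha : Commute (E1 i) (K2 (j + 1)) := hc.EK i (j + 1)
      have hb : Commute (E1 i) (K2 j) := hc.EK i j
      exact ha.mul_right (hb.pow_right _)
    · have ha : Commute (E2 i) (F1 j) := (hc.FE j i).symm
      exact (((tC j (E2 i)).symm).mul_right ha).eq
    · have hab : ∀ a b, Commute (K1 a) (K2 b) := hc.KK
      exact ((hab _ _).mul_left ((hab _ _).pow_left _)).mul_right
        (((hab _ _).mul_left ((hab _ _).pow_left _)).pow_right _)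
    · have ha : ∀ a, Commute (K1 a) (F2 j) := fun a => hc.KF a j
      exact (ha _).mul_left ((ha _).pow_left _)
  rw [hF0]
  exact
    { tc := h2.tc
      tc' := h2.tc'
      tt := h2.tt
      E_out := fun i hi => by simp [cE, h1.E_out i hi, h2.E_out i hi]
      F_out := fun i hi => by simp [cF, h1.F_out i hi, h2.F_out i hi]
      K_out := fun j hj => by simp [cK, h1.K_out j hj, h2.K_out j hj]
      K_comm := hcomm
      K_pow := hpow
      KE := fun j i => KE_cE' hKI hl h1.K_comm h1.K_pow h1.KE h2.KE hc.EK hc.KE hc.KK j i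
      KF := hKF
      EF := by
        intro i hi
        rw [key i i, h1.EF i hi, h2.EF i hi]
        have hab : ∀ a b, Commute (K1 a) (K2 b) := hc.KK
        have ep : ∀ a, cK K1 K2 a ^ (l - 1) = ki l K1 a * ki l K2 a := fun a => (hab a a).mul_pow _
        rw [ep, ep]
        have c1 : ∀ a b, Commute (ki l K1 a) (K2 b) := fun a b => (hab a b).pow_left _
        have c2 : ∀ a b, Commute (K1 a) (ki l K2 b) := fun a b => (hab a b).pow_right _
        show t' i * ((q - q⁻¹)⁻¹ • (K1 i * ki l K1 (i + 1) - ki l K1 i * K1 (i + 1)))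
            * (K2 (i + 1) * ki l K2 i)
          + K1 i * ki l K1 (i + 1) * ((q - q⁻¹)⁻¹ • (t i * (K2 i * ki l K2 (i + 1))
            - t' i * (ki l K2 i * K2 (i + 1))))
          = (q - q⁻¹)⁻¹ • (t i * (K1 i * K2 i * (ki l K1 (i + 1) * ki l K2 (i + 1)))
            - t' i * (ki l K1 i * ki l K2 i * (K1 (i + 1) * K2 (i + 1))))
        rw [mul_smul_comm, smul_mul_assoc, mul_smul_comm, ← smul_add]
        congr 1
        have d1 : K1 i * K2 i * (ki l K1 (i + 1) * ki l K2 (i + 1))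
            = K1 i * ki l K1 (i + 1) * (K2 i * ki l K2 (i + 1)) := by
          rw [mul_assoc, ← mul_assoc (K2 i), ← (c1 (i + 1) i).eq]; noncomm_ring
        have d2 : ki l K1 i * ki l K2 i * (K1 (i + 1) * K2 (i + 1))
            = ki l K1 i * K1 (i + 1) * (K2 (i + 1) * ki l K2 i) := by
          rw [mul_assoc, ← mul_assoc (ki l K2 i), ← (c2 (i + 1) i).eq, m3 (i + 1) i]; noncomm_ring
        have t1 : K1 i * ki l K1 (i + 1) * (t i * (K2 i * ki l K2 (i + 1)))
            = t i * (K1 i * ki l K1 (i + 1) * (K2 i * ki l K2 (i + 1))) := by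
          rw [← mul_assoc, ← h2.tc i (K1 i * ki l K1 (i + 1)), mul_assoc]
        have t2 : K1 i * ki l K1 (i + 1) * (t' i * (ki l K2 i * K2 (i + 1)))
            = t' i * (K1 i * ki l K1 (i + 1) * (K2 (i + 1) * ki l K2 i)) := by
          rw [← mul_assoc, ← h2.tc' i (K1 i * ki l K1 (i + 1)), mul_assoc, m3 (i + 1) i]
        rw [mul_sub (K1 i * ki l K1 (i + 1)), t1, t2, d1, d2]
        noncomm_ring
      EF_ne := by
        intro i j hij
        rw [← sub_eq_zero, key i j, h1.EF_ne i j hij, h2.EF_ne i j hij, sub_self, sub_self,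
          mul_zero, zero_mul, mul_zero, add_zero]
      sE := serre_cE' hCS hKI hl hq h1.K_comm h1.K_pow h1.KE h1.sE h2.sE hc.EE hc.KE
      sF := by
        rw [hF]
        exact serre_cE' hCS hKI hl hq b2.K_comm b2.K_pow b2.KE b2.sE b1'.sE cFF cKF
      pF := by
        rw [hF]
        exact hCP B l q F2 (ki l K2) _ (ki l K1) hP.odd hl3 hP.prim b2 b1' cFF cKF }

end Pool.Agent.Helper90.SQC
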